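import Mathlib

set_option autoImplicit false

namespace Pool.Agent.H.MP_ddfcce_an
open Module Finset InnerProductSpace
open scoped InnerProductSpace

variable {𝕜 : Type} [RCLike 𝕜] {N : ℕ}

abbrev E (𝕜 : Type) [RCLike 𝕜] (N : ℕ) := EuclideanSpace 𝕜 (Fin N)

noncomputable def sg (T : E 𝕜 N →ₗ[𝕜] E 𝕜 N) (i : ℕ) : ℝ := T.singularValues i

noncomputable def vb (T : E 𝕜 N →ₗ[𝕜] E 𝕜 N) : OrthonormalBasis (Fin N) 𝕜 (E 𝕜 N) :=
  T.isSymmetric_adjoint_comp_self.eigenvectorBasis finrank_euclideanSpace_fin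

lemma sg_nonneg (T : E 𝕜 N →ₗ[𝕜] E 𝕜 N) (i : ℕ) : 0 ≤ sg T i := T.singularValues_nonneg i

lemma sg_anti (T : E 𝕜 N →ₗ[𝕜] E 𝕜 N) : Antitone (sg T) := T.singularValues_antitone

lemma inner_vb (T : E 𝕜 N →ₗ[𝕜] E 𝕜 N) (i : Fin N) (x : E 𝕜 N) :
    ⟪vb T i, T.adjoint (T x)⟫_𝕜 = ((sg T i ^ 2 : ℝ) : 𝕜) * ⟪vb T i, x⟫_𝕜 := by
  have h := T.isSymmetric_adjoint_comp_self.apply_eigenvectorBasis finrank_euclideanSpace_fin i
  have h2 := T.isSymmetric_adjoint_comp_self (vb T i) x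
  have h3 : sg T i ^ 2 = _ := T.sq_singularValues_fin finrank_euclideanSpace_fin i
  rw [h3]
  have : ⟪vb T i, T.adjoint (T x)⟫_𝕜 = ⟪(T.adjoint ∘ₗ T) (vb T i), x⟫_𝕜 := h2.symm
  rw [this]
  unfold vb
  rw [h, inner_smul_left]
  simp

lemma norm_sq (T : E 𝕜 N →ₗ[𝕜] E 𝕜 N) (x : E 𝕜 N) :
    ‖T x‖ ^ 2 = ∑ i : Fin N, sg T i ^ 2 * ‖⟪vb T i, x⟫_𝕜‖ ^ 2 := by
  have h1 : ⟪x, T.adjoint (T x)⟫_𝕜 = ⟪T x, T x⟫_𝕜 := LinearMap.adjoint_inner_right T x (T x)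
  have h2 := (vb T).sum_inner_mul_inner x (T.adjoint (T x))
  rw [h1, inner_self_eq_norm_sq_to_K] at h2
  have h3 : ∀ i, ⟪x, vb T i⟫_𝕜 * ⟪vb T i, T.adjoint (T x)⟫_𝕜 =
      ((sg T i ^ 2 * ‖⟪vb T i, x⟫_𝕜‖ ^ 2 : ℝ) : 𝕜) := fun i => by
    rw [inner_vb, ← inner_conj_symm x, mul_left_comm, RCLike.conj_mul]
    push_cast; ring
  simp only [h3] at h2
  have h4 : ((‖T x‖ ^ 2 : ℝ) : 𝕜) =
      ((∑ i : Fin N, sg T i ^ 2 * ‖⟪vb T i, x⟫_𝕜‖ ^ 2 : ℝ) : 𝕜) := by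
    rw [RCLike.ofReal_sum, h2]; push_cast; ring
  exact_mod_cast h4

lemma pars (T : E 𝕜 N →ₗ[𝕜] E 𝕜 N) (x : E 𝕜 N) :
    ∑ i : Fin N, ‖⟪vb T i, x⟫_𝕜‖ ^ 2 = ‖x‖ ^ 2 := (vb T).sum_sq_norm_inner_right x

lemma up (T : E 𝕜 N →ₗ[𝕜] E 𝕜 N) {x : E 𝕜 N} {R : ℝ} (hR : 0 ≤ R)
    (h : ∀ i : Fin N, ⟪vb T i, x⟫_𝕜 ≠ 0 → sg T i ≤ R) : ‖T x‖ ≤ R * ‖x‖ := by
  apply le_of_sq_le_sq _ (by positivity) |> fun h => h
  rw [norm_sq, mul_pow, ← pars T, mul_sum]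
  refine sum_le_sum fun i _ => ?_
  by_cases hi : ⟪vb T i, x⟫_𝕜 = 0
  · simp [hi]
  · have := h i hi
    have := sg_nonneg T i
    gcongr

lemma low (T : E 𝕜 N →ₗ[𝕜] E 𝕜 N) {x : E 𝕜 N} {t : ℝ} (ht : 0 ≤ t) (hx : x ≠ 0)
    (h : ∀ i : Fin N, ⟪vb T i, x⟫_𝕜 ≠ 0 → t < sg T i) : t * ‖x‖ < ‖T x‖ := by
  apply lt_of_pow_lt_pow_left₀ 2 (norm_nonneg _)
  rw [norm_sq, mul_pow, ← pars T, mul_sum]
  obtain ⟨j, hj⟩ : ∃ j : Fin N, ⟪vb T j, x⟫_𝕜 ≠ 0 := by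
    by_contra hc
    push Not at hc
    have := pars T x
    simp [hc] at this
    exact hx (by simpa using this.symm)
  refine sum_lt_sum (fun i _ => ?_) ⟨j, mem_univ _, ?_⟩
  · by_cases hi : ⟪vb T i, x⟫_𝕜 = 0
    · simp [hi]
    · have := (h i hi).le
      gcongr
  · have := h j hj
    have : 0 < ‖⟪vb T j, x⟫_𝕜‖ := norm_pos_iff.2 hj
    gcongr

lemma norm_vb (T : E 𝕜 N →ₗ[𝕜] E 𝕜 N) (i : Fin N) : ‖T (vb T i)‖ = sg T i := by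
  have h := norm_sq T (vb T i)
  rw [sum_eq_single i] at h
  · rw [inner_self_eq_norm_sq_to_K, (vb T).orthonormal.1 i] at h
    simp at h
    exact (pow_left_inj₀ (norm_nonneg _) (sg_nonneg T i) two_ne_zero).1 h
  · intro j _ hj
    simp [(vb T).orthonormal.2 hj]
  · simp

lemma le_sg0 (T : E 𝕜 N →ₗ[𝕜] E 𝕜 N) (x : E 𝕜 N) : ‖T x‖ ≤ sg T 0 * ‖x‖ :=
  up T (sg_nonneg T 0) fun i _ => sg_anti T (Nat.zero_le _)

lemma hs (T : E 𝕜 N →ₗ[𝕜] E 𝕜 N) :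
    ∑ i : Fin N, sg T i ^ 2 = ∑ k : Fin N, ‖T (EuclideanSpace.single k 1)‖ ^ 2 := by
  simp only [norm_sq]
  rw [sum_comm]
  refine sum_congr rfl fun i _ => ?_
  rw [← mul_sum]
  have : ∑ k : Fin N, ‖⟪vb T i, EuclideanSpace.single k (1 : 𝕜)⟫_𝕜‖ ^ 2 = 1 := by
    have h := EuclideanSpace.norm_sq_eq (vb T i)
    rw [(vb T).orthonormal.1 i] at h
    simp only [EuclideanSpace.inner_single_right]
    simpa using h.symm
  rw [this, mul_one]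

/-- The range lies in a subspace of dimension at most `n`. -/
def Rk (T : E 𝕜 N →ₗ[𝕜] E 𝕜 N) (n : ℕ) : Prop := finrank 𝕜 (LinearMap.range T) ≤ n

lemma count (T b : E 𝕜 N →ₗ[𝕜] E 𝕜 N) {n : ℕ} (hb : Rk b n) {t : ℝ} (ht : 0 ≤ t)
    (h : ∀ x, ‖T x - b x‖ ≤ t * ‖x‖) : #{i : Fin N | t < sg T i} ≤ n := by
  classical
  set S := ({i : Fin N | t < sg T i} : Finset (Fin N)) with hS
  let V : Submodule 𝕜 (E 𝕜 N) := Submodule.span 𝕜 (Set.range fun i : S => vb T i)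
  have hV : finrank 𝕜 V = #S := by
    rw [finrank_span_eq_card]
    · simp
    · exact ((vb T).orthonormal.comp _ Subtype.val_injective).linearIndependent
  have hz : ∀ x ∈ V, ∀ i : Fin N, i ∉ S → ⟪vb T i, x⟫_𝕜 = 0 := by
    intro x hx i hi
    induction hx using Submodule.span_induction with
    | mem y hy =>
      obtain ⟨j, rfl⟩ := hy
      exact (vb T).orthonormal.2 (fun e => hi (e ▸ j.2))
    | zero => simp
    | add a c _ _ ha hc => rw [inner_add_right, ha, hc, add_zero]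
    | smul a c _ hc => rw [inner_smul_right, hc, mul_zero]
  have inj : Function.Injective (b.rangeRestrict ∘ₗ V.subtype) := by
    rw [← LinearMap.ker_eq_bot, LinearMap.ker_eq_bot']
    intro x hx
    by_contra h0
    have h1 : b x = 0 := congrArg Subtype.val hx
    have h2 := h x
    rw [h1, sub_zero] at h2
    have h3 := low T ht (x := x) (fun e => h0 (Subtype.ext e)) fun i hi => by
      by_contra hc
      exact hi (hz x x.2 i (by simpa [hS] using hc))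
    linarith
  have := LinearMap.finrank_le_finrank_of_injective inj
  rw [hV] at this
  exact this.trans hb

end Pool.Agent.H.MP_ddfcce_an
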