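import Pool.Agent.H.MP_ddfcce_an.A

set_option autoImplicit false

namespace Pool.Agent.H.MP_ddfcce_an
open Module Finset InnerProductSpace MeasureTheory
open scoped InnerProductSpace Topology Pointwise

lemma vol {Y : Type} [NormedAddCommGroup Y] [NormedSpace ℝ Y] [FiniteDimensional ℝ Y] {B : Set Y}
    (hb : Bornology.IsBounded B) (h0 : B ∈ 𝓝 0) (s : Finset Y) {θ : ℝ} (hθ : 0 ≤ θ)
    (h : ∀ y ∈ B, ∃ c ∈ s, ∃ b ∈ B, y = c + θ • b) : 1 ≤ s.card * θ ^ finrank ℝ Y := by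
  borelize Y
  let μ : Measure Y := Measure.addHaar
  have h1 : μ B ≠ 0 := (Measure.measure_pos_of_mem_nhds μ h0).ne'
  have h2 : μ B ≠ ⊤ := hb.measure_lt_top.ne
  have h3 : μ B ≤ ∑ c ∈ s, μ (c +ᵥ θ • B) := by
    refine le_trans (measure_mono ?_) (measure_biUnion_finset_le s _)
    intro y hy
    obtain ⟨c, hc, b, hb, e⟩ := h y hy
    exact Set.mem_biUnion hc ⟨θ • b, ⟨b, hb, rfl⟩, e.symm⟩
  simp only [measure_vadd, Measure.addHaar_smul, sum_const, nsmul_eq_mul] at h3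
  rw [← mul_assoc] at h3
  have h4 : (1 : ENNReal) ≤ s.card * ENNReal.ofReal |θ ^ finrank ℝ Y| := by
    rwa [← ENNReal.mul_le_mul_iff_left h1 h2, one_mul]
  rw [abs_of_nonneg (by positivity), ← ENNReal.ofReal_natCast, ← ENNReal.ofReal_mul (by positivity),
    ENNReal.one_le_ofReal] at h4
  exact h4

lemma net0 (W : Type) [NormedAddCommGroup W] [NormedSpace ℝ W] [FiniteDimensional ℝ W] :
    ∃ s : Finset W, s.card ≤ 5 ^ finrank ℝ W ∧ ∀ w, ‖w‖ ≤ 2 → ∃ c ∈ s, ‖w - c‖ ≤ 1 := by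
  classical
  let P : Finset W → Prop := fun s => (∀ c ∈ s, ‖c‖ ≤ 2) ∧ ∀ c ∈ s, ∀ d ∈ s, c ≠ d → 1 ≤ ‖c - d‖
  have hb : ∀ s, P s → s.card ≤ 5 ^ finrank ℝ W := fun s h =>
    Besicovitch.card_le_of_separated s h.1 h.2
  have hB : BddAbove {n | ∃ s, P s ∧ s.card = n} := ⟨_, by rintro _ ⟨s, h, rfl⟩; exact hb s h⟩
  obtain ⟨s, hs, e⟩ := Nat.sSup_mem (s := {n | ∃ s, P s ∧ s.card = n}) ⟨0, ∅, by simp [P], rfl⟩ hB
  refine ⟨s, hb s hs, fun w hw => ?_⟩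
  by_contra hc
  push Not at hc
  have hn : w ∉ s := fun h => by have := hc w h; simp at this; linarith
  have : P (insert w s) := by
    refine ⟨by simpa [hw] using hs.1, fun c hc' d hd hcd => ?_⟩
    rcases mem_insert.1 hc' with rfl | h1 <;> rcases mem_insert.1 hd with rfl | h2
    · exact absurd rfl hcd
    · exact (hc d h2).le
    · rw [norm_sub_rev]; exact (hc c h1).le
    · exact hs.2 c h1 d h2 hcd
  have := le_csSup hB ⟨_, this, rfl⟩
  rw [← e, card_insert_of_notMem hn] at this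
  omega

lemma net (W : Type) [NormedAddCommGroup W] [NormedSpace ℝ W] [FiniteDimensional ℝ W] (m : ℕ) :
    ∃ s : Finset W, s.card ≤ 5 ^ (finrank ℝ W * m) ∧
      ∀ w, ‖w‖ ≤ 1 → ∃ c ∈ s, ‖w - c‖ ≤ 1 / 2 ^ m := by
  classical
  obtain ⟨s0, h0, H0⟩ := net0 W
  induction m with
  | zero => exact ⟨{0}, by simp, fun w hw => ⟨0, by simp, by simpa using hw⟩⟩
  | succ m ih =>
    obtain ⟨s, h, H⟩ := ih
    refine ⟨image₂ (fun c d => c + (1 / 2 ^ (m + 1) : ℝ) • d) s s0, ?_, fun w hw => ?_⟩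
    · refine (card_image₂_le _ _ _).trans ?_
      rw [mul_add, pow_add, mul_one]
      exact Nat.mul_le_mul h h0
    · obtain ⟨c, hc, e⟩ := H w hw
      obtain ⟨d, hd, e'⟩ := H0 ((2 ^ (m + 1) : ℝ) • (w - c)) (by
        rw [norm_smul, Real.norm_of_nonneg (by positivity)]
        calc _ ≤ 2 ^ (m + 1) * (1 / 2 ^ m : ℝ) := by gcongr
          _ = 2 := by field_simp; ring)
      refine ⟨_, mem_image₂_of_mem hc hd, ?_⟩
      have : w - (c + (1 / 2 ^ (m + 1) : ℝ) • d) =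
          (1 / 2 ^ (m + 1) : ℝ) • ((2 ^ (m + 1) : ℝ) • (w - c) - d) := by
        rw [smul_sub _ _ d, smul_smul, one_div_mul_cancel (by positivity), one_smul]; abel
      rw [this, norm_smul, Real.norm_of_nonneg (by positivity)]
      exact mul_le_of_le_one_right (by positivity) e'

variable {𝕜 : Type} [RCLike 𝕜] {N : ℕ}

abbrev X (𝕜 : Type) [RCLike 𝕜] (a b : ℕ) := E 𝕜 a →L[𝕜] E 𝕜 b

def Rc (z : X 𝕜 N N) (n : ℕ) : Prop := Rk (z : E 𝕜 N →ₗ[𝕜] E 𝕜 N) n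

lemma Rc.mono {z : X 𝕜 N N} {m n : ℕ} (h : Rc z m) (hm : m ≤ n) : Rc z n := le_trans h hm

lemma rc_zero : Rc (0 : X 𝕜 N N) 0 := by simp [Rc, Rk]

lemma Rc.add {a b : X 𝕜 N N} {m n : ℕ} (h : Rc a m) (h' : Rc b n) : Rc (a + b) (m + n) := by
  refine le_trans (Submodule.finrank_mono ?_)
    ((Submodule.finrank_add_le_finrank_add_finrank _ _).trans (Nat.add_le_add h h'))
  rintro _ ⟨x, rfl⟩
  exact Submodule.add_mem_sup ⟨x, rfl⟩ ⟨x, rfl⟩

lemma Rc.smul {a : X 𝕜 N N} {m : ℕ} (h : Rc a m) (c : 𝕜) : Rc (c • a) m := by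
  refine le_trans (Submodule.finrank_mono ?_) h
  rintro _ ⟨x, rfl⟩
  exact ⟨c • x, by simp⟩

lemma rc_comp {s : ℕ} (A : X 𝕜 s N) (B : X 𝕜 N s) : Rc (A ∘L B) s := by
  have h := LinearMap.finrank_range_le (A : E 𝕜 s →ₗ[𝕜] E 𝕜 N)
  rw [finrank_euclideanSpace_fin] at h
  refine le_trans (Submodule.finrank_mono ?_) h
  rintro _ ⟨x, rfl⟩
  exact ⟨B x, rfl⟩

def Fac (z : X 𝕜 N N) (s : ℕ) (R : ℝ) : Prop :=
  ∃ (A : X 𝕜 s N) (B : X 𝕜 N s), ‖A‖ ≤ 1 ∧ ‖B‖ ≤ 1 ∧ z = (R : 𝕜) • A ∘L B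

lemma Fac.rc {z : X 𝕜 N N} {s : ℕ} {R : ℝ} (h : Fac z s R) : Rc z s := by
  obtain ⟨A, B, -, -, rfl⟩ := h
  exact (rc_comp A B).smul _

lemma finX (a b : ℕ) : finrank 𝕜 (X 𝕜 a b) = a * b := by
  rw [← LinearMap.toContinuousLinearMap.finrank_eq, finrank_linearMap]; simp

instance (a b : ℕ) : FiniteDimensional ℝ (X 𝕜 a b) := Module.Finite.trans 𝕜 _

lemma finXR (a b : ℕ) : finrank ℝ (X 𝕜 a b) = finrank ℝ 𝕜 * (a * b) := by
  rw [← finX (𝕜 := 𝕜) a b, finrank_mul_finrank]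

lemma net1 (s m : ℕ) {R : ℝ} (hR : 0 ≤ R) : ∃ M : Finset (X 𝕜 N N),
    M.card ≤ 5 ^ (finrank ℝ 𝕜 * (2 * N) * (s * m)) ∧
      ∀ z, Fac z s R → ∃ c ∈ M, ‖z - c‖ ≤ 3 * R / 2 ^ m ∧ Rc (z - c) (2 * s) := by
  classical
  obtain ⟨M, h, H⟩ := net (X 𝕜 s N) m
  obtain ⟨M', h', H'⟩ := net (X 𝕜 N s) m
  refine ⟨image₂ (fun A B => (R : 𝕜) • A ∘L B) M M', ?_, ?_⟩
  · refine (card_image₂_le _ _ _).trans ((Nat.mul_le_mul h h').trans ?_)
    rw [← pow_add, finXR, finXR]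
    apply le_of_eq; congr 1; ring
  · rintro _ ⟨A, B, hA, hB, rfl⟩
    obtain ⟨A', hA', eA⟩ := H A hA
    obtain ⟨B', hB', eB⟩ := H' B hB
    refine ⟨_, mem_image₂_of_mem hA' hB', ?_, ?_⟩
    · have e : (R : 𝕜) • A ∘L B - (R : 𝕜) • A' ∘L B' =
          (R : 𝕜) • ((A - A') ∘L B + A' ∘L (B - B')) := by
        ext1 x; simp [smul_sub]
      have d1 : (1 / 2 ^ m : ℝ) ≤ 1 := by
        rw [div_le_one (by positivity)]; exact one_le_pow₀ one_le_two
      have n1 : ‖A'‖ ≤ 2 := by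
        have := norm_sub_norm_le A' A
        rw [norm_sub_rev] at this; linarith
      have n2 : ‖(A - A') ∘L B‖ ≤ 1 / 2 ^ m * 1 :=
        (ContinuousLinearMap.opNorm_comp_le _ _).trans (by gcongr)
      have n3 : ‖A' ∘L (B - B')‖ ≤ 2 * (1 / 2 ^ m) :=
        (ContinuousLinearMap.opNorm_comp_le _ _).trans (by gcongr)
      rw [e, norm_smul, RCLike.norm_ofReal, abs_of_nonneg hR]
      calc _ ≤ R * (1 / 2 ^ m * 1 + 2 * (1 / 2 ^ m)) := by
            gcongr; exact (norm_add_le _ _).trans (add_le_add n2 n3)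
        _ = _ := by ring
    · have e : (R : 𝕜) • A ∘L B - (R : 𝕜) • A' ∘L B' =
          (R : 𝕜) • A ∘L B + (-R : 𝕜) • A' ∘L B' := by
        ext1 x; simp [sub_eq_add_neg]
      rw [e, two_mul]
      exact ((rc_comp A B).smul _).add ((rc_comp A' B').smul _)

lemma netJ (s m : ℕ → ℕ) {R : ℕ → ℝ} (hR : ∀ j, 0 ≤ R j) (J : ℕ) : ∃ M : Finset (X 𝕜 N N),
    M.card ≤ 5 ^ (finrank ℝ 𝕜 * (2 * N) * ∑ j ∈ range J, s j * m j) ∧
      ∀ z : ℕ → X 𝕜 N N, (∀ j, Fac (z j) (s j) (R j)) → ∃ c ∈ M,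
        ‖∑ j ∈ range J, z j - c‖ ≤ ∑ j ∈ range J, 3 * R j / 2 ^ m j ∧
          Rc (∑ j ∈ range J, z j - c) (∑ j ∈ range J, 2 * s j) := by
  classical
  induction J with
  | zero => exact ⟨{0}, by simp, fun z _ => ⟨0, by simp, by simp, by simpa using rc_zero⟩⟩
  | succ J ih =>
    obtain ⟨M, h, H⟩ := ih
    obtain ⟨M', h', H'⟩ := net1 (𝕜 := 𝕜) (N := N) (s J) (m J) (hR J)
    refine ⟨image₂ (· + ·) M M', ?_, fun z hz => ?_⟩
    · refine (card_image₂_le _ _ _).trans ((Nat.mul_le_mul h h').trans ?_)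
      rw [← pow_add, sum_range_succ, mul_add]
    · obtain ⟨c, hc, a1, a2⟩ := H z hz
      obtain ⟨c', hc', b1, b2⟩ := H' _ (hz J)
      refine ⟨_, mem_image₂_of_mem hc hc', ?_⟩
      have e : ∑ j ∈ range (J + 1), z j - (c + c') = (∑ j ∈ range J, z j - c) + (z J - c') := by
        rw [sum_range_succ]; abel
      rw [e, sum_range_succ, sum_range_succ]
      exact ⟨(norm_add_le _ _).trans (add_le_add a1 b1), a2.add b2⟩

noncomputable def U {ι : Type} [Fintype ι] {a b : ℕ} (u : ι → E 𝕜 b) (v : ι → E 𝕜 a) : X 𝕜 a b :=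
  ∑ i, rankOne 𝕜 (u i) (v i)

lemma U_apply {ι : Type} [Fintype ι] {a b : ℕ} (u : ι → E 𝕜 b) (v : ι → E 𝕜 a) (x : E 𝕜 a) :
    U u v x = ∑ i, ⟪v i, x⟫_𝕜 • u i := by simp [U]

lemma U_norm {ι : Type} [Fintype ι] {a b : ℕ} {u : ι → E 𝕜 b} {v : ι → E 𝕜 a}
    (hu : Orthonormal 𝕜 u) (hv : Orthonormal 𝕜 v) : ‖U u v‖ ≤ 1 := by
  refine ContinuousLinearMap.opNorm_le_bound _ zero_le_one fun x => ?_
  apply le_of_sq_le_sq _ (by positivity) |> fun h => h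
  rw [one_mul]
  refine le_trans (le_of_eq ?_) (hv.sum_inner_products_le x (s := univ))
  have h := hu.inner_sum (fun i => ⟪v i, x⟫_𝕜) (fun i => ⟪v i, x⟫_𝕜) univ
  rw [← U_apply, inner_self_eq_norm_sq_to_K] at h
  simp only [RCLike.conj_mul] at h
  exact_mod_cast h

noncomputable def part (T : X 𝕜 N N) (S : Finset (Fin N)) : X 𝕜 N N :=
  ∑ i ∈ S, rankOne 𝕜 (T (vb T.toLinearMap i)) (vb T.toLinearMap i)

lemma part_univ (T : X 𝕜 N N) : part T univ = T := by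
  ext1 x
  conv_rhs => rw [← (vb T.toLinearMap).sum_repr' x]
  simp [part]

lemma part_fac (T : X 𝕜 N N) (S : Finset (Fin N)) {s : ℕ} (hs : #S ≤ s) {R : ℝ} (hR : 0 < R)
    (h : ∀ i ∈ S, sg T.toLinearMap i ≤ R) : Fac (part T S) s R := by
  classical
  obtain ⟨g⟩ : Nonempty (S ↪ Fin s) := Function.Embedding.nonempty_of_card_le (by simpa using hs)
  let v : S → E 𝕜 N := fun i => vb T.toLinearMap i
  let e : S → E 𝕜 s := fun i => EuclideanSpace.basisFun (Fin s) 𝕜 (g i)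
  have hv : Orthonormal 𝕜 v := (vb T.toLinearMap).orthonormal.comp _ Subtype.val_injective
  have he : Orthonormal 𝕜 e := (EuclideanSpace.basisFun (Fin s) 𝕜).orthonormal.comp _ g.injective
  have hR' : (R : 𝕜) ≠ 0 := by exact_mod_cast hR.ne'
  refine ⟨(R : 𝕜)⁻¹ • T ∘L U v e, U e v, ?_, U_norm he hv, ?_⟩
  · refine ContinuousLinearMap.opNorm_le_bound _ zero_le_one fun y => ?_
    have h1 := up T.toLinearMap (x := U v e y) hR.le fun i hi => by
      by_contra hc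
      apply hi
      rw [U_apply, inner_sum]
      refine sum_eq_zero fun j _ => ?_
      rw [inner_smul_right, (vb T.toLinearMap).orthonormal.2, mul_zero]
      rintro rfl
      exact hc (h _ j.2)
    have h2 := (U v e).le_of_opNorm_le (U_norm hv he) y
    have h3 : ‖T (U v e y)‖ ≤ R * (1 * ‖y‖) := h1.trans (by gcongr)
    simp only [_root_.smul_apply, ContinuousLinearMap.comp_apply, norm_smul, norm_inv,
      RCLike.norm_ofReal, abs_of_pos hR]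
    rwa [inv_mul_le_iff₀ hR]
  · ext1 x
    simp only [_root_.smul_apply, ContinuousLinearMap.comp_apply]
    rw [smul_smul, mul_inv_cancel₀ hR', one_smul, U_apply v e, U_apply e v]
    simp only [he.inner_right_fintype]
    simp only [part, _root_.sum_apply, rankOne_apply, map_sum, map_smul]
    exact (sum_coe_sort S _).symm

lemma Fac.norm {z : X 𝕜 N N} {s : ℕ} {R : ℝ} (h : Fac z s R) (hR : 0 ≤ R) : ‖z‖ ≤ R := by
  obtain ⟨A, B, hA, hB, rfl⟩ := h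
  rw [norm_smul, RCLike.norm_ofReal, abs_of_nonneg hR]
  exact mul_le_of_le_one_right hR ((ContinuousLinearMap.opNorm_comp_le _ _).trans
    (mul_le_one₀ hA (norm_nonneg _) hB))

end Pool.Agent.H.MP_ddfcce_an
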