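import Pool.Agent.H.MP_ddfcce_an.B

set_option autoImplicit false

namespace Pool.Agent.H.MP_ddfcce_an
open Module Finset InnerProductSpace
open scoped InnerProductSpace Topology

variable {𝕜 : Type} [RCLike 𝕜] {N : ℕ}

noncomputable def lo (T : X 𝕜 N N) (t : ℝ) : Finset (Fin N) := {i | sg T.toLinearMap i ≤ t}

lemma lo_mono (T : X 𝕜 N N) {s t : ℝ} (h : s ≤ t) : lo T s ⊆ lo T t := fun i hi => by
  simp only [lo, mem_filter, mem_univ, true_and] at hi ⊢; linarith

lemma part_sdiff (T : X 𝕜 N N) {s t : ℝ} (h : s ≤ t) :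
    part T (lo T t \ lo T s) = part T (lo T t) - part T (lo T s) := by
  unfold part; rw [sum_sdiff_eq_sub (lo_mono T h)]

lemma part_norm (T : X 𝕜 N N) {t : ℝ} (ht : 0 < t) : ‖part T (lo T t)‖ ≤ t :=
  (part_fac T _ le_rfl ht fun i hi => by simpa [lo] using hi).norm ht.le

lemma part_rc (T : X 𝕜 N N) (S : Finset (Fin N)) : Rc (part T S) #S :=
  (part_fac T S le_rfl (R := sg T.toLinearMap 0 + 1) (by have := sg_nonneg T.toLinearMap 0; linarith)
    fun i _ => by have := sg_anti T.toLinearMap (Nat.zero_le i); linarith).rc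

lemma markov (T : X 𝕜 N N) {q t : ℝ} (hq : 0 < q) (ht : 0 < t) (S : Finset (Fin N))
    (h : ∀ i ∈ S, i ∉ lo T t) : #S * t ^ q ≤ ∑ i : Fin N, sg T.toLinearMap i ^ q := by
  rw [← nsmul_eq_mul, ← sum_const]
  refine (sum_le_sum fun i hi => ?_).trans (sum_le_sum_of_subset_of_nonneg (subset_univ S)
    fun i _ _ => Real.rpow_nonneg (sg_nonneg _ _) _)
  have := h i hi
  simp only [lo, mem_filter, mem_univ, true_and, not_le] at this
  gcongr

noncomputable def tau (q : ℝ) (j : ℕ) : ℝ := (2 : ℝ) ^ (-(j : ℝ) / q)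

lemma tau_pos (q : ℝ) (j : ℕ) : 0 < tau q j := Real.rpow_pos_of_pos two_pos _

lemma tau_anti {q : ℝ} (hq : 0 < q) : Antitone (tau q) := fun i j h => by
  have : (i : ℝ) ≤ j := by exact_mod_cast h
  unfold tau; gcongr; norm_num

lemma tau_zero (q : ℝ) : tau q 0 = 1 := by simp [tau]

lemma tau_pow {q : ℝ} (hq : 0 < q) (j : ℕ) : tau q j ^ q = 1 / 2 ^ j := by
  rw [tau, ← Real.rpow_mul two_pos.le, div_mul_cancel₀ _ hq.ne', Real.rpow_neg two_pos.le,
    Real.rpow_natCast, one_div]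

def KK (𝕜 : Type) [RCLike 𝕜] (N : ℕ) (q : ℝ) (r : ℕ) (l : ℝ) : Set (X 𝕜 N N) :=
  {x | ‖x‖ ≤ l ∧ ∀ j : ℕ, ∃ b, Rc b (2 ^ j * r) ∧ ‖x - b‖ ≤ l * tau q j}

lemma KK_nhds {q l : ℝ} (hq : 0 < q) (hl : 0 < l) {r : ℕ} (hr : 1 ≤ r) : KK 𝕜 N q r l ∈ 𝓝 0 := by
  refine Filter.mem_of_superset
    (Metric.closedBall_mem_nhds 0 (mul_pos hl (tau_pos q N))) fun x hx => ?_
  rw [mem_closedBall_zero_iff] at hx
  have h : ∀ j ≤ N, ‖x‖ ≤ l * tau q j := fun j hj => hx.trans (by gcongr; exact tau_anti hq hj)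
  refine ⟨by simpa [tau_zero] using h 0 (Nat.zero_le _), fun j => ?_⟩
  rcases le_total j N with hj | hj
  · exact ⟨0, rc_zero.mono (Nat.zero_le _), by simpa using h j hj⟩
  · refine ⟨x, ?_, by simpa using (mul_pos hl (tau_pos q j)).le⟩
    have h1 := LinearMap.finrank_range_le x.toLinearMap
    rw [finrank_euclideanSpace_fin] at h1
    have h2 : j < 2 ^ j := Nat.lt_two_pow_self
    exact h1.trans (by nlinarith)

lemma geo1 (J : ℕ) : ∑ j ∈ range J, ((j : ℝ) + 1) / 2 ^ j = 4 - (J + 2) * 2 / 2 ^ J := by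
  induction J with
  | zero => norm_num
  | succ J ih => rw [sum_range_succ, ih]; push_cast; field_simp; ring

lemma geo2 (J : ℕ) : ∑ j ∈ range J, (1 : ℝ) / 2 ^ j = 2 - 2 / 2 ^ J := by
  induction J with
  | zero => norm_num
  | succ J ih => rw [sum_range_succ, ih]; field_simp; ring

lemma split {q η : ℝ} (hq : 0 < q) (hη : 0 < η) {A r : ℕ} (hA : 1 ≤ A * q) :
    ∃ M : Finset (X 𝕜 N N), M.card ≤ 5 ^ (finrank ℝ 𝕜 * (N * r / 4)) ∧
      ∀ z : X 𝕜 N N, ∑ i : Fin N, sg z.toLinearMap i ^ q ≤ η ^ q * r / (32 * (A + 1)) →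
        ∃ c ∈ M, ∃ k ∈ KK 𝕜 N q r (20 * η), z = c + (5 : 𝕜)⁻¹ • k := by
  set G : ℕ := 32 * (A + 1) with hG
  have hG' : (G : ℝ) = 32 * (A + 1) := by rw [hG]; push_cast; ring
  have hG0 : (32 : ℝ) ≤ G := by rw [hG']; nlinarith [Nat.cast_nonneg (α := ℝ) A]
  let s : ℕ → ℕ := fun j => r / (G * 2 ^ j)
  let t : ℕ → ℝ := fun j => η * 2 ^ (A * j)
  have ht : ∀ j, 0 < t j := fun j => by positivity
  have hs : ∀ j, (s j : ℝ) ≤ r / G * (1 / 2 ^ j) := fun j => by
    have : (s j : ℝ) ≤ r / (G * 2 ^ j : ℕ) := Nat.cast_div_le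
    refine this.trans (le_of_eq ?_); push_cast; field_simp
  obtain ⟨M, h, H⟩ := netJ (𝕜 := 𝕜) (N := N) s (fun j => (A + 1) * (j + 1))
    (R := fun j => t (j + 1)) (fun j => (ht _).le) r
  refine ⟨M, h.trans ?_, fun z hz => ?_⟩
  · rw [mul_assoc]
    gcongr
    · norm_num
    rw [Nat.le_div_iff_mul_le (by norm_num)]
    have h1 : ∑ j ∈ range r, (s j : ℝ) * ((A + 1) * (j + 1)) ≤ r / 8 := by
      calc _ ≤ ∑ j ∈ range r, (r / 32 : ℝ) * ((j + 1) / 2 ^ j) := by
            refine sum_le_sum fun j _ => (mul_le_mul_of_nonneg_right (hs j) (by positivity)).trans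
              (le_of_eq ?_)
            rw [hG']; field_simp
        _ ≤ r / 32 * 4 := by
            rw [← mul_sum, geo1]; gcongr; exact sub_le_self _ (by positivity)
        _ = _ := by ring
    have h2 : ((2 * N * (∑ j ∈ range r, s j * ((A + 1) * (j + 1))) * 4 : ℕ) : ℝ) ≤ (N * r : ℕ) := by
      push_cast
      nlinarith [mul_le_mul_of_nonneg_left h1 (Nat.cast_nonneg (α := ℝ) N)]
    exact_mod_cast h2
  rw [← hG'] at hz
  have mk : ∀ (u w : ℝ), 0 < u → 0 < w → w ≤ u ^ q → ∀ S : Finset (Fin N),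
      (∀ i ∈ S, i ∉ lo z (η * u)) → (#S : ℝ) * (G * w) ≤ r := by
    intro u w hu hw hwu S hS
    have h1 := (markov z hq (mul_pos hη hu) S hS).trans hz
    rw [Real.mul_rpow hη.le hu.le, le_div_iff₀ (by positivity)] at h1
    have h2 : 0 < η ^ q := by positivity
    have h3 : η ^ q * (#S * (G * u ^ q)) ≤ η ^ q * r := by linarith
    exact le_trans (by gcongr) (le_of_mul_le_mul_left h3 h2)
  have pw : ∀ j : ℕ, (2 : ℝ) ^ j ≤ ((2 : ℝ) ^ (A * j)) ^ q := fun j => by
    rw [← Real.rpow_natCast, ← Real.rpow_natCast, ← Real.rpow_mul two_pos.le]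
    gcongr
    · norm_num
    · push_cast; nlinarith [Nat.cast_nonneg (α := ℝ) j]
  have tm : ∀ j, t j ≤ t (j + 1) := fun j => by
    simp only [t]; gcongr; exacts [one_le_two, Nat.le_succ j]
  have top : lo z (t r) = univ := by
    by_contra hc
    obtain ⟨i, hi⟩ : ∃ i, i ∉ lo z (t r) := by
      by_contra h'; push Not at h'; exact hc (eq_univ_of_forall h')
    have h1 := mk _ _ (by positivity) (by positivity) (pw r) {i} (by simpa using hi)
    have h2 : (r : ℝ) < 2 ^ r := by exact_mod_cast Nat.lt_two_pow_self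
    simp only [card_singleton, Nat.cast_one, one_mul] at h1
    nlinarith
  obtain ⟨c, hc, n1, r1⟩ := H (fun j => part z (lo z (t (j + 1)) \ lo z (t j))) fun j => by
    refine part_fac z _ ?_ (ht _) fun i hi => by simpa [lo] using (mem_sdiff.1 hi).1
    rw [Nat.le_div_iff_mul_le (by positivity)]
    have := mk _ _ (by positivity) (by positivity) (pw j) (lo z (t (j + 1)) \ lo z (t j))
      fun i hi => (mem_sdiff.1 hi).2
    exact_mod_cast this
  simp only [part_sdiff z (tm _)] at n1 r1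
  rw [sum_range_sub (fun j => part z (lo z (t j))), top, part_univ] at n1 r1
  have t0 : t 0 = η := by simp [t]
  rw [t0] at n1 r1
  set e := z - part z (lo z η) - c with he
  have n2 : ‖e‖ ≤ 3 * η := by
    refine n1.trans ?_
    calc _ = ∑ j ∈ range r, 3 * η / 2 * (1 / 2 ^ j) := by
          refine sum_congr rfl fun j _ => ?_
          simp only [t]
          rw [add_mul, pow_add, one_mul, pow_succ]; field_simp
      _ ≤ 3 * η / 2 * 2 := by rw [← mul_sum, geo2]; gcongr; exact sub_le_self _ (by positivity)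
      _ = _ := by ring
  have r2 : ((∑ j ∈ range r, 2 * s j : ℕ) : ℝ) ≤ r / 8 := by
    push_cast
    calc _ ≤ ∑ j ∈ range r, 2 * (r / G * (1 / 2 ^ j) : ℝ) := by gcongr; exact hs _
      _ ≤ 2 * (r / 32 * 2) := by
          rw [← mul_sum, ← mul_sum, geo2]; gcongr
          · rw [sub_nonneg]; exact div_le_self two_pos.le (one_le_pow₀ one_le_two)
          · exact sub_le_self _ (by positivity)
      _ = _ := by ring
  have n5 : ‖(5 : 𝕜)‖ = 5 := by simp
  refine ⟨c, hc, (5 : 𝕜) • (part z (lo z η) + e), ⟨?_, fun j => ?_⟩, ?_⟩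
  · rw [norm_smul, n5]
    have := norm_add_le (part z (lo z η)) e
    have := part_norm z hη
    linarith
  · have a1 : tau q j ≤ 1 := tau_zero q ▸ tau_anti hq (Nat.zero_le j)
    have a0 := tau_pos q j
    have a2 : η * tau q j ≤ η := mul_le_of_le_one_right hη.le a1
    refine ⟨(5 : 𝕜) • (part z (lo z η \ lo z (η * tau q j)) + e),
      (((part_rc z _).add r1).smul _).mono ?_, ?_⟩
    · have b1 := mk _ _ a0 (by positivity) (tau_pow hq j).ge (lo z η \ lo z (η * tau q j))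
        fun i hi => (mem_sdiff.1 hi).2
      have b2 : (1 : ℝ) ≤ 2 ^ j := one_le_pow₀ one_le_two
      have b3 : (#(lo z η \ lo z (η * tau q j)) : ℝ) * 32 ≤ 2 ^ j * r := by
        rw [mul_one_div, ← mul_div_assoc, div_le_iff₀ (by positivity)] at b1
        calc _ ≤ (#(lo z η \ lo z (η * tau q j)) : ℝ) * G := by gcongr
          _ ≤ _ := by linarith
      have b4 : ((#(lo z η \ lo z (η * tau q j)) + ∑ j ∈ range r, 2 * s j : ℕ) : ℝ) ≤
          (2 ^ j * r : ℕ) := by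
        rw [Nat.cast_add, Nat.cast_mul, Nat.cast_pow, Nat.cast_ofNat]
        nlinarith [Nat.cast_nonneg (α := ℝ) r]
      exact_mod_cast b4
    · rw [part_sdiff z a2]
      have : (5 : 𝕜) • (part z (lo z η) + e) -
          (5 : 𝕜) • (part z (lo z η) - part z (lo z (η * tau q j)) + e) =
          (5 : 𝕜) • part z (lo z (η * tau q j)) := by module
      rw [this, norm_smul, n5]
      have := part_norm z (mul_pos hη a0)
      nlinarith
  · rw [smul_smul, inv_mul_cancel₀ (by norm_num), one_smul, he]; abel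

theorem core {q : ℝ} (hq : 0 < q) : ∃ ε : ℝ, 0 < ε ∧ ∀ (N r : ℕ) (l : ℝ) (L : Submodule 𝕜 (X 𝕜 N N)),
    0 < N → 1 ≤ r → 0 < l → N * r + finrank 𝕜 L ≤ N * N → ∃ x ∈ KK 𝕜 N q r l, ∀ y ∈ L,
      ε * r * l ^ q ≤ ∑ i : Fin N, sg (x - y).toLinearMap i ^ q := by
  classical
  obtain ⟨A, hA⟩ := exists_nat_ge (1 / q)
  rw [div_le_iff₀ hq] at hA
  refine ⟨(1 / 20) ^ q / (32 * (A + 1)), by positivity, fun N r l L hN hr hl hd => ?_⟩
  by_contra hc
  push Not at hc
  obtain ⟨M, h, H⟩ := split (𝕜 := 𝕜) (N := N) (η := l / 20) (r := r) hq (by positivity) hA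
  rw [mul_div_cancel₀ _ (by norm_num)] at H
  set d := finrank 𝕜 (X 𝕜 N N ⧸ L) with hd'
  have hd2 : N * r ≤ d := by
    have := L.finrank_quotient_add_finrank
    rw [finX] at this; omega
  let e : (X 𝕜 N N ⧸ L) ≃ₗ[𝕜] (Fin d → 𝕜) := LinearEquiv.ofFinrankEq _ _ (by simp [hd'])
  let Q : X 𝕜 N N →L[𝕜] (Fin d → 𝕜) := LinearMap.toContinuousLinearMap (e.toLinearMap ∘ₗ L.mkQ)
  have hQ : Function.Surjective Q := e.surjective.comp L.mkQ_surjective
  have hQL : ∀ y ∈ L, Q y = 0 := fun y hy => by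
    show e (L.mkQ y) = 0
    rw [L.mkQ_apply, (Submodule.Quotient.mk_eq_zero L).2 hy, map_zero]
  have v := vol (B := Q '' KK 𝕜 N q r l) (Q.lipschitz.isBounded_image
    (Metric.isBounded_closedBall.subset (s := KK 𝕜 N q r l) (t := Metric.closedBall 0 l)
      fun x hx => mem_closedBall_zero_iff.2 hx.1))
    (by simpa using (Q.isOpenMap hQ).image_mem_nhds (KK_nhds hq hl hr)) (M.image Q)
    (θ := 1 / 5) (by norm_num) (by
      rintro _ ⟨x, hx, rfl⟩
      obtain ⟨y, hy, h1⟩ := hc x hx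
      obtain ⟨c, hc, k, hk, e1⟩ := H (x - y) (h1.le.trans (le_of_eq (by
        rw [div_eq_mul_one_div l, Real.mul_rpow hl.le (by norm_num)]; field_simp)))
      refine ⟨Q c, mem_image_of_mem _ hc, Q k, ⟨k, hk, rfl⟩, ?_⟩
      have e2 := congrArg Q e1
      rw [map_sub, hQL y hy, sub_zero, map_add, map_smul] at e2
      rw [e2, RCLike.real_smul_eq_coe_smul (K := 𝕜), one_div, RCLike.ofReal_inv,
        RCLike.ofReal_ofNat])
  have f1 : finrank ℝ (Fin d → 𝕜) = finrank ℝ 𝕜 * d := by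
    rw [← finrank_mul_finrank ℝ 𝕜]; simp
  have f0 : 0 < finrank ℝ 𝕜 := finrank_pos
  rw [f1, one_div, inv_pow, ← div_eq_mul_inv, one_le_div (by positivity)] at v
  have v2 : 5 ^ (finrank ℝ 𝕜 * d) ≤ #(M.image Q) := by exact_mod_cast v
  have v3 := (Nat.pow_le_pow_iff_right (by norm_num)).1 (v2.trans (card_image_le.trans h))
  have v4 := Nat.le_of_mul_le_mul_left v3 f0
  have : 0 < N * r := by positivity
  omega

end Pool.Agent.H.MP_ddfcce_an
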