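import Pool.Agent.H.MP_ddfcce_an.C

set_option autoImplicit false

namespace Pool.Agent.H.MP_ddfcce_an
open Module Finset InnerProductSpace
open scoped InnerProductSpace ENNReal

variable {𝕜 : Type} [RCLike 𝕜] {N : ℕ}

lemma sg_big (T : X 𝕜 N N) {i : ℕ} (hi : N ≤ i) : sg T.toLinearMap i = 0 :=
  T.toLinearMap.singularValues_of_finrank_le (by simpa using hi)

lemma sg_le (T b : X 𝕜 N N) {n i : ℕ} (hb : Rc b n) (hi : n ≤ i) :
    sg T.toLinearMap i ≤ ‖T - b‖ := by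
  rcases le_or_gt N i with h | h
  · rw [sg_big T h]; exact norm_nonneg _
  by_contra hc
  push Not at hc
  have h1 := count T.toLinearMap b.toLinearMap hb (norm_nonneg (T - b))
    fun x => (T - b).le_opNorm x
  have h2 : Iic (⟨i, h⟩ : Fin N) ⊆ univ.filter fun k : Fin N => ‖T - b‖ < sg T.toLinearMap k :=
      fun k hk => by
    simp only [mem_filter, mem_univ, true_and]
    exact hc.trans_le (sg_anti _ (Fin.le_def.1 (mem_Iic.1 hk)))
  have h3 := card_le_card h2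
  rw [Fin.card_Iic] at h3
  simp only at h3
  omega

lemma sg_norm (T : X 𝕜 N N) (i : ℕ) : sg T.toLinearMap i ≤ ‖T‖ := by
  simpa using sg_le T 0 rc_zero (Nat.zero_le i)

noncomputable def sx (p : ℝ≥0∞) (T : X 𝕜 N N) : ℝ :=
  if p = ⊤ then sg T.toLinearMap 0
  else (∑ j ∈ range N, sg T.toLinearMap j ^ p.toReal) ^ (1 / p.toReal)

lemma KK_sum {q p l : ℝ} (hq : 0 < q) (hp : q < p) (hl : 0 < l) {r : ℕ} (hr : 1 ≤ r)
    {x : X 𝕜 N N} (hx : x ∈ KK 𝕜 N q r l) :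
    ∑ j ∈ range N, sg x.toLinearMap j ^ p ≤ (1 + (1 - 2 ^ (1 - p / q))⁻¹) * r * l ^ p := by
  set β : ℝ := 2 ^ (1 - p / q) with hβ
  have β0 : 0 < β := by positivity
  have β1 : β < 1 := Real.rpow_lt_one_of_one_lt_of_neg one_lt_two
    (by rw [sub_neg, one_lt_div hq]; exact hp)
  have p0 : 0 < p := hq.trans hp
  have s0 := sg_nonneg x.toLinearMap
  have key : ∀ J : ℕ, ∑ j ∈ range (2 ^ J * r), sg x.toLinearMap j ^ p ≤
      (1 + ∑ j ∈ range J, β ^ j) * r * l ^ p := by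
    intro J
    induction J with
    | zero =>
      simp only [pow_zero, one_mul, range_zero, sum_empty, add_zero]
      have := sum_le_card_nsmul (range r) (fun j => sg x.toLinearMap j ^ p) (l ^ p) fun j _ =>
        Real.rpow_le_rpow (s0 j) ((sg_norm x j).trans hx.1) p0.le
      simpa using this
    | succ J ih =>
      obtain ⟨b, hb, e⟩ := hx.2 J
      have h1 := sum_le_card_nsmul (range (2 ^ J * r)) (fun j => sg x.toLinearMap (2 ^ J * r + j) ^ p)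
        ((l * tau q J) ^ p) fun j _ =>
          Real.rpow_le_rpow (s0 _) ((sg_le x b hb (Nat.le_add_right _ _)).trans e) p0.le
      have h2 : β ^ J = 2 ^ J * tau q J ^ p := by
        rw [hβ, tau, ← Real.rpow_natCast, ← Real.rpow_natCast, ← Real.rpow_mul two_pos.le,
          ← Real.rpow_mul two_pos.le, ← Real.rpow_add two_pos]
        congr 1; ring
      rw [pow_succ, mul_right_comm, mul_two, sum_range_add, sum_range_succ, h2]
      rw [card_range, nsmul_eq_mul, Real.mul_rpow hl.le (tau_pos q J).le] at h1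
      push_cast at h1
      linarith
  have h1 : N ≤ 2 ^ N * r := by nlinarith [(Nat.lt_two_pow_self : N < 2 ^ N)]
  refine (sum_le_sum_of_subset_of_nonneg (range_subset_range.2 h1) fun j _ _ =>
    Real.rpow_nonneg (s0 j) _).trans ((key N).trans ?_)
  gcongr
  rw [← tsum_geometric_of_lt_one β0.le β1]
  exact (summable_geometric_of_lt_one β0.le β1).sum_le_tsum _ fun _ _ => by positivity

lemma sx_ge {q : ℝ≥0∞} (hq : 0 < q) (hq' : q ≠ ⊤) (T : X 𝕜 N N) {a : ℝ} (ha : 0 ≤ a)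
    (h : a ^ q.toReal ≤ ∑ i : Fin N, sg T.toLinearMap i ^ q.toReal) : a ≤ sx q T := by
  have hr : 0 < q.toReal := ENNReal.toReal_pos hq.ne' hq'
  rw [sx, if_neg hq', ← Fin.sum_univ_eq_sum_range (fun k => sg T.toLinearMap k ^ q.toReal), one_div]
  exact (Real.le_rpow_inv_iff_of_pos ha ((Real.rpow_nonneg ha _).trans h) hr).2 h

lemma nontriv {p q : ℝ≥0∞} (hq : 0 < q) (hp : q < p) : ∃ c : ℝ, 0 < c ∧
    ∀ (N r : ℕ) (L : Submodule 𝕜 (X 𝕜 N N)), 0 < N → 1 ≤ r → N * r + finrank 𝕜 L ≤ N * N →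
      ∃ x, sx p x ≤ 1 ∧ ∀ y ∈ L, c * (r : ℝ) ^ (q⁻¹.toReal - p⁻¹.toReal) ≤ sx q (x - y) := by
  have hq' : q ≠ ⊤ := hp.ne_top
  have hr : 0 < q.toReal := ENNReal.toReal_pos hq.ne' hq'
  obtain ⟨ε, hε, H⟩ := core (𝕜 := 𝕜) hr
  obtain ⟨C, hC, HC⟩ : ∃ C : ℝ, 0 < C ∧ ∀ (N r : ℕ), 1 ≤ r →
      ∀ x ∈ KK 𝕜 N q.toReal r (C * (r : ℝ) ^ (-p⁻¹.toReal)), sx p x ≤ 1 := by
    by_cases hp' : p = ⊤
    · refine ⟨1, one_pos, fun N r _ x hx => ?_⟩
      rw [sx, if_pos hp']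
      exact (sg_norm x 0).trans (by simpa [hp'] using hx.1)
    have h1 : q.toReal < p.toReal := (ENNReal.toReal_lt_toReal hq' hp').2 hp
    have p0 := hr.trans h1
    set D : ℝ := 1 + (1 - 2 ^ (1 - p.toReal / q.toReal))⁻¹ with hD
    have D0 : 0 < D := by
      have : (2 : ℝ) ^ (1 - p.toReal / q.toReal) < 1 := Real.rpow_lt_one_of_one_lt_of_neg one_lt_two
        (by rw [sub_neg, one_lt_div hr]; exact h1)
      have : 0 < 1 - (2 : ℝ) ^ (1 - p.toReal / q.toReal) := by linarith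
      positivity
    refine ⟨D ^ (-p.toReal⁻¹), by positivity, fun N r hr1 x hx => ?_⟩
    have r0 : (0 : ℝ) < r := by exact_mod_cast hr1
    have h2 := KK_sum hr h1 (by positivity) hr1 hx
    rw [← hD, ENNReal.toReal_inv, ← Real.mul_rpow D0.le r0.le, ← Real.rpow_mul (by positivity),
      neg_mul, inv_mul_cancel₀ p0.ne', Real.rpow_neg_one, mul_inv_cancel₀ (by positivity)] at h2
    rw [sx, if_neg hp']
    exact Real.rpow_le_one (sum_nonneg fun j _ => Real.rpow_nonneg (sg_nonneg _ j) _) h2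
      (by positivity)
  refine ⟨ε ^ q.toReal⁻¹ * C, by positivity, fun N r L hN hr1 hd => ?_⟩
  have r0 : (0 : ℝ) < r := by exact_mod_cast hr1
  obtain ⟨x, hx, h⟩ := H N r (C * (r : ℝ) ^ (-p⁻¹.toReal)) L hN hr1 (by positivity) hd
  refine ⟨x, HC N r hr1 x hx, fun y hy => sx_ge hq hq' _ (by positivity) (le_trans ?_ (h y hy))⟩
  have : ε ^ q.toReal⁻¹ * C * (r : ℝ) ^ (q⁻¹.toReal - p⁻¹.toReal) =
      (ε * r) ^ q.toReal⁻¹ * (C * (r : ℝ) ^ (-p⁻¹.toReal)) := by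
    rw [sub_eq_add_neg, Real.rpow_add r0, ENNReal.toReal_inv q, Real.mul_rpow hε.le r0.le]; ring
  rw [this, Real.mul_rpow (by positivity) (by positivity),
    Real.rpow_inv_rpow (by positivity) hr.ne']

lemma sub_add {ι : Type} (s : Finset ι) (f : ι → ℝ) (hf : ∀ i, 0 ≤ f i) {q : ℝ} (hq : 0 < q)
    (hq1 : q ≤ 1) : (∑ i ∈ s, f i) ^ q ≤ ∑ i ∈ s, f i ^ q := by
  classical
  induction s using Finset.induction_on with
  | empty => simp [hq.ne']
  | insert a s ha ih =>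
    rw [sum_insert ha, sum_insert ha]
    exact (Real.rpow_add_le_add_rpow (hf a) (sum_nonneg fun i _ => hf i) hq.le hq1).trans
      (by linarith)

lemma triv {p q : ℝ≥0∞} (hq : 0 < q) (hq1 : q ≤ 1) (hp : 0 < p) (L : Submodule 𝕜 (X 𝕜 N N))
    (hL : finrank 𝕜 L < N * N) : ∃ x, sx p x ≤ 1 ∧ ∀ y ∈ L, 1 / 2 ≤ sx q (x - y) := by
  have hq' : q ≠ ⊤ := (hq1.trans_lt ENNReal.one_lt_top).ne
  have hr : 0 < q.toReal := ENNReal.toReal_pos hq.ne' hq'
  have hr1 : q.toReal ≤ 1 := ENNReal.toReal_le_of_le_ofReal zero_le_one (by simpa using hq1)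
  obtain ⟨f, f0, hf⟩ := L.exists_le_ker_of_lt_top (Submodule.lt_top_of_finrank_lt_finrank
    (by rwa [finX]))
  let g := LinearMap.toContinuousLinearMap f
  let S : Set ℝ := {a | ∃ u v : E 𝕜 N, ‖u‖ ≤ 1 ∧ ‖v‖ ≤ 1 ∧ ‖f (rankOne 𝕜 u v)‖ = a}
  have hS : BddAbove S := ⟨‖g‖, by
    rintro _ ⟨u, v, hu, hv, rfl⟩
    have := g.le_of_opNorm_le le_rfl (rankOne 𝕜 u v)
    rw [norm_rankOne] at this
    exact this.trans (mul_le_of_le_one_right (norm_nonneg _) (mul_le_one₀ hu (norm_nonneg _) hv))⟩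
  have S0 : (0 : ℝ) ∈ S := ⟨0, 0, by simp, by simp, by simp⟩
  have M0 : 0 ≤ sSup S := le_csSup hS S0
  have h1 : ∀ u v : E 𝕜 N, ‖v‖ ≤ 1 → ‖f (rankOne 𝕜 u v)‖ ≤ sSup S * ‖u‖ := by
    intro u v hv
    rcases eq_or_ne u 0 with rfl | hu
    · simp
    have n0 : 0 < ‖u‖ := norm_pos_iff.2 hu
    have := le_csSup hS ⟨((‖u‖⁻¹ : ℝ) : 𝕜) • u, v, by simp [norm_smul, n0.ne'], hv, rfl⟩
    rw [map_smul, _root_.smul_apply, map_smul, norm_smul, RCLike.norm_ofReal,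
      abs_of_pos (by positivity), inv_mul_le_iff₀' n0] at this
    exact this
  have h2 : ∀ z : X 𝕜 N N, ‖f z‖ ≤ sSup S * ∑ i : Fin N, sg z.toLinearMap i := by
    intro z
    conv_lhs => rw [← part_univ z, part, map_sum]
    rw [mul_sum]
    refine norm_sum_le_of_le _ fun i _ => (h1 _ _ ((vb z.toLinearMap).orthonormal.1 i).le).trans ?_
    rw [← norm_vb]; rfl
  by_contra hc
  push Not at hc
  have h3 : sSup S ≤ sSup S * (1 / 2) := by
    refine csSup_le ⟨0, S0⟩ ?_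
    rintro _ ⟨u, v, hu, hv, rfl⟩
    have n1 : ‖rankOne 𝕜 u v‖ ≤ 1 := by rw [norm_rankOne]; exact mul_le_one₀ hu (norm_nonneg _) hv
    have rk : Rc (rankOne 𝕜 u v) 1 := by
      refine le_trans (Submodule.finrank_mono (t := 𝕜 ∙ u) ?_) (by
        simpa using finrank_span_le_card ({u} : Set (E 𝕜 N)))
      rintro _ ⟨x, rfl⟩
      exact Submodule.smul_mem _ _ (Submodule.mem_span_singleton_self u)
    obtain ⟨y, hy, h⟩ := hc (rankOne 𝕜 u v) (by
      have a0 := (sg_norm (rankOne 𝕜 u v) 0).trans n1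
      unfold sx
      split_ifs with hp'
      · exact a0
      have p0 : 0 < p.toReal := ENNReal.toReal_pos hp.ne' hp'
      refine Real.rpow_le_one (sum_nonneg fun j _ => Real.rpow_nonneg (sg_nonneg _ j) _) ?_
        (by positivity)
      rw [sum_eq_single 0]
      · exact Real.rpow_le_one (sg_nonneg _ _) a0 p0.le
      · intro j _ hj
        have := sg_le (rankOne 𝕜 u v) _ rk (Nat.one_le_iff_ne_zero.2 hj)
        rw [sub_self, norm_zero] at this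
        rw [le_antisymm this (sg_nonneg _ _), Real.zero_rpow p0.ne']
      · intro h
        rw [sg_big _ (by simpa using h), Real.zero_rpow p0.ne'])
    have b1 := sx_ge hq hq' (rankOne 𝕜 u v - y) (sum_nonneg fun i _ => sg_nonneg _ _)
      (sub_add univ (fun i : Fin N => sg _ i) (fun i => sg_nonneg _ _) hr hr1)
    have b2 := h2 (rankOne 𝕜 u v - y)
    rw [map_sub, show f y = 0 from hf hy, sub_zero] at b2
    exact b2.trans (by gcongr; exact b1.trans h.le)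
  apply f0
  ext z
  have := h2 z
  rw [show sSup S = 0 by linarith, zero_mul] at this
  simpa using this

noncomputable def sv (A : Matrix (Fin N) (Fin N) 𝕜) (j : ℕ) : ℝ :=
  (Matrix.toEuclideanLin A).singularValues j

noncomputable def sch (p : ℝ≥0∞) (A : Matrix (Fin N) (Fin N) 𝕜) : ℝ :=
  if p = ⊤ then sv A 0 else (∑ j ∈ range N, sv A j ^ p.toReal) ^ (1 / p.toReal)

noncomputable def kol (𝕜 : Type) [RCLike 𝕜] (N : ℕ) (p q : ℝ≥0∞) (n : ℕ) : ℝ≥0∞ :=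
  ⨅ (L : Submodule 𝕜 (Matrix (Fin N) (Fin N) 𝕜)) (_ : finrank 𝕜 L < n),
    ⨆ (x : Matrix (Fin N) (Fin N) 𝕜) (_ : sch p x ≤ 1), ⨅ y ∈ L, ENNReal.ofReal (sch q (x - y))

theorem main (𝕜 : Type) [RCLike 𝕜] (p q : ℝ≥0∞) (hq : 0 < q) (hq1 : q ≤ 1) (hp : q ≤ p) :
    ∃ c : ℝ, 0 < c ∧ ∀ N n : ℕ, 1 ≤ n → n ≤ N ^ 2 →
      ENNReal.ofReal (c * max 1 (((N : ℝ) ^ 2 - n + 1) / N) ^ (q⁻¹.toReal - p⁻¹.toReal)) ≤
        kol 𝕜 N p q n := by
  set e := q⁻¹.toReal - p⁻¹.toReal with he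
  have e0 : 0 ≤ e := sub_nonneg.2 (ENNReal.toReal_mono (by simpa using hq.ne')
    (ENNReal.inv_le_inv.2 hp))
  obtain ⟨c, hc, H⟩ : ∃ c : ℝ, 0 < c ∧ ∀ (N r : ℕ) (L : Submodule 𝕜 (X 𝕜 N N)), 0 < N →
      finrank 𝕜 L < N * N → r = 1 ∨ 1 ≤ r ∧ N * r + finrank 𝕜 L ≤ N * N →
        ∃ x, sx p x ≤ 1 ∧ ∀ y ∈ L, c * (r : ℝ) ^ e ≤ sx q (x - y) := by
    rcases hp.eq_or_lt with rfl | hp'
    · refine ⟨1 / 2, by norm_num, fun N r L _ hL _ => ?_⟩
      simpa [he] using triv hq hq1 hq L hL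
    · obtain ⟨c, hc, H⟩ := nontriv (𝕜 := 𝕜) hq hp'
      refine ⟨min c (1 / 2), by positivity, fun N r L hN hL h => ?_⟩
      rcases h with rfl | h
      · obtain ⟨x, hx, h⟩ := triv hq hq1 (hq.trans hp') L hL
        exact ⟨x, hx, fun y hy => le_trans (by simp) (h y hy)⟩
      · obtain ⟨x, hx, h⟩ := H N r L hN h.1 h.2
        exact ⟨x, hx, fun y hy => le_trans (by gcongr; exact min_le_left _ _) (h y hy)⟩
  refine ⟨c * (1 / 2) ^ e, by positivity, fun N n hn hN => le_iInf₂ fun L hL => ?_⟩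
  let ψ : Matrix (Fin N) (Fin N) 𝕜 ≃ₗ[𝕜] X 𝕜 N N :=
    Matrix.toEuclideanLin ≪≫ₗ LinearMap.toContinuousLinearMap
  have hψ : ∀ p A, sch p A = sx p (ψ A) := fun _ _ => rfl
  have hN0 : 0 < N := by
    rcases Nat.eq_zero_or_pos N with rfl | h
    · simp at hN; omega
    · exact h
  have N0 : (0 : ℝ) < N := by exact_mod_cast hN0
  rw [sq] at hN
  obtain ⟨k, hk⟩ : ∃ k, N * N + 1 = n + k := ⟨N * N + 1 - n, by omega⟩
  have hk' : (N : ℝ) ^ 2 - n + 1 = k := by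
    have : ((N * N + 1 : ℕ) : ℝ) = (n + k : ℕ) := by rw [hk]
    push_cast at this; linarith
  have hF : finrank 𝕜 (L.map ψ.toLinearMap) = finrank 𝕜 L := ψ.finrank_map_eq L
  obtain ⟨x, hx, h⟩ := H N (max 1 (k / N)) (L.map ψ.toLinearMap) hN0 (by omega) (by
    rcases max_choice 1 (k / N) with h | h
    · exact .inl h
    · refine .inr ⟨le_max_left _ _, ?_⟩
      have := Nat.mul_div_le k N
      rw [h]; omega)
  refine le_iSup₂_of_le (ψ.symm x) (by rwa [hψ, ψ.apply_symm_apply]) (le_iInf₂ fun y hy => ?_)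
  apply ENNReal.ofReal_le_ofReal
  rw [hψ, map_sub, ψ.apply_symm_apply, hk', mul_assoc,
    ← Real.mul_rpow (by norm_num) (by positivity)]
  refine le_trans ?_ (h _ ⟨y, hy, rfl⟩)
  have a1 : (1 : ℝ) ≤ (max 1 (k / N) : ℕ) := by exact_mod_cast le_max_left _ _
  have a2 : ((k / N : ℕ) : ℝ) ≤ (max 1 (k / N) : ℕ) := by exact_mod_cast le_max_right _ _
  have a3 : (k : ℝ) / N ≤ (k / N : ℕ) + 1 := by
    rw [div_le_iff₀ N0]
    have : k ≤ (k / N + 1) * N := by rw [mul_comm]; exact (Nat.lt_mul_div_succ k hN0).le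
    exact_mod_cast this
  have a4 : max 1 ((k : ℝ) / N) ≤ 2 * (max 1 (k / N) : ℕ) := max_le (by linarith) (by linarith)
  gcongr
  linarith

end Pool.Agent.H.MP_ddfcce_an
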